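import Pool.Agent.Helper85.Hopf.EulerNumbers

/-!
Alternating sums with the Euler numbers: the local inequality.
-/

namespace Pool.Agent.Helper85.Hopf

open Finset Nat

theorem t_odd (i : ℕ) : t (2 * i + 1) = (-1) ^ (i + 1) * (((2 * i + 1) ! : ℚ) * a i) := by
  have h1 : ((-1 : ℚ) ^ (i + 1)) * (-1) ^ (i + 1) = 1 := by rw [← mul_pow]; norm_num
  have hf : ((2 * i + 1) ! : ℚ) ≠ 0 := by positivity
  unfold a
  field_simp
  linear_combination (-(t (2 * i + 1))) * h1

/-- `tau i = 2 |t (2i+1)|` -/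
noncomputable def tau (i : ℕ) : ℚ := 2 * (((2 * i + 1) ! : ℚ) * a i)

theorem tau_pos (i : ℕ) : 0 < tau i := by
  have := a_pos i
  unfold tau; positivity

theorem sum_odd (n : ℕ) (g : ℕ → ℚ) (h : ∀ k, Even k → g k = 0) :
    ∑ k ∈ range (2 * n + 1), g k = ∑ i ∈ range n, g (2 * i + 1) := by
  induction n with
  | zero => simp [h 0 (by simp)]
  | succ n ih =>
    rw [show 2 * (n + 1) + 1 = (2 * n + 1) + 1 + 1 by ring, sum_range_succ, sum_range_succ, ih,
      sum_range_succ, h (2 * n + 1 + 1) (by rw [show 2 * n + 1 + 1 = 2 * (n + 1) by ring]; exact even_two_mul _)]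
    ring

theorem alt_nonneg (u : ℕ → ℚ) (n : ℕ) (h0 : ∀ i < n, 0 ≤ u i) (h1 : ∀ i, i + 1 < n → u i ≤ u (i + 1)) :
    0 ≤ (-1) ^ n * ∑ i ∈ range n, (-1) ^ (i + 1) * u i ∧
      ∀ k, k + 1 = n → (-1) ^ n * ∑ i ∈ range n, (-1) ^ (i + 1) * u i ≤ u k := by
  induction n with
  | zero => simp
  | succ n ih =>
    obtain ⟨ih1, ih2⟩ := ih (fun i hi => h0 i (by omega)) (fun i hi => h1 i (by omega))
    have e : (-1 : ℚ) ^ (n + 1) * ∑ i ∈ range (n + 1), (-1) ^ (i + 1) * u i =
        u n - (-1) ^ n * ∑ i ∈ range n, (-1) ^ (i + 1) * u i := by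
      rw [sum_range_succ, mul_add]
      have h2 : ((-1 : ℚ) ^ (n + 1)) * ((-1) ^ (n + 1) * u n) = u n := by
        rw [← mul_assoc, ← mul_pow]; norm_num
      rw [h2, pow_succ]; ring
    rw [e]
    constructor
    · rcases n with _ | k
      · simp; exact h0 0 (by omega)
      · have := ih2 k rfl
        have := h1 k (by omega)
        linarith
    · intro k hk
      have : k = n := by omega
      subst this
      linarith

/-- The local inequality. -/
theorem local_bound (m : ℕ) (F : ℕ → ℚ) (hF0 : F 0 = 1)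
    (hF : ∀ k < 2 * m, (2 * (m : ℚ) + 1 - k) * F k ≤ (k + 1) * F (k + 1)) :
    tau m ≤ (-1) ^ m * ∑ k ∈ range (2 * m + 1), F k * t k := by
  set D : ℕ → ℚ := fun k => F k - ((2 * m + 1).choose k : ℚ) with hD
  have hD0 : D 0 = 0 := by simp [hD, hF0]
  have hch : ∀ k ≤ 2 * m, (2 * (m : ℚ) + 1 - k) * ((2 * m + 1).choose k : ℚ) =
      (k + 1) * ((2 * m + 1).choose (k + 1) : ℚ) := by
    intro k hk
    have := Nat.choose_succ_right_eq (2 * m + 1) k
    have h2 : (((2 * m + 1 - k : ℕ)) : ℚ) = 2 * (m : ℚ) + 1 - k := by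
      rw [Nat.cast_sub (by omega)]; push_cast; ring
    have h3 := congrArg (fun n : ℕ => (n : ℚ)) this
    simp only [Nat.cast_mul] at h3
    rw [h2] at h3
    push_cast at h3
    linarith
  have hDs : ∀ k < 2 * m, (2 * (m : ℚ) + 1 - k) * D k ≤ (k + 1) * D (k + 1) := by
    intro k hk
    have h1 := hF k hk
    have h2 := hch k hk.le
    simp only [hD]
    linarith
  have hDn : ∀ k ≤ 2 * m, 0 ≤ D k := by
    intro k
    induction k with
    | zero => intro _; rw [hD0]
    | succ k ih =>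
      intro hk
      have h1 := ih (by omega)
      have h2 := hDs k (by omega)
      have h3 : (0 : ℚ) ≤ 2 * (m : ℚ) + 1 - k := by
        have : (k : ℚ) ≤ 2 * (m : ℚ) := by exact_mod_cast (by omega : k ≤ 2 * m)
        linarith
      have h4 : 0 ≤ ((k : ℚ) + 1) * D (k + 1) := le_trans (mul_nonneg h3 h1) h2
      have h5 : (0 : ℚ) < (k : ℚ) + 1 := by positivity
      exact nonneg_of_mul_nonneg_right h4 h5
  have hsplit : ∑ k ∈ range (2 * m + 1), F k * t k =
      -2 * t (2 * m + 1) + ∑ k ∈ range (2 * m + 1), D k * t k := by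
    rw [← t_rec (2 * m + 1) (by omega), ← sum_add_distrib]
    apply sum_congr rfl
    intro k _
    simp only [hD]; ring
  have hDt : ∑ k ∈ range (2 * m + 1), D k * t k =
      ∑ i ∈ range m, (-1) ^ (i + 1) * (D (2 * i + 1) * (((2 * i + 1) ! : ℚ) * a i)) := by
    rw [sum_odd m (fun k => D k * t k)]
    · apply sum_congr rfl
      intro i _
      rw [t_odd]; ring
    · intro k hk
      by_cases h0 : k = 0
      · rw [h0, hD0, zero_mul]
      · rw [t_even hk h0, mul_zero]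
  have halt := (alt_nonneg (fun i => D (2 * i + 1) * (((2 * i + 1) ! : ℚ) * a i)) m ?_ ?_).1
  · rw [hsplit, hDt, mul_add, t_odd]
    have h1 : ((-1 : ℚ) ^ m) * (-2 * ((-1) ^ (m + 1) * (((2 * m + 1) ! : ℚ) * a m))) = tau m := by
      have h2 : ((-1 : ℚ) ^ m) * (-1) ^ m = 1 := by rw [← mul_pow]; norm_num
      unfold tau
      rw [pow_succ]
      linear_combination (2 * (((2 * m + 1) ! : ℚ) * a m)) * h2
    rw [h1]
    linarith
  · intro i hi
    have := a_pos i
    have h2 := hDn (2 * i + 1) (by omega)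
    positivity
  · intro i hi
    have ha := a_growth i
    have hap := a_pos i
    have hap1 := a_pos (i + 1)
    have hd := hDn (2 * i + 1) (by omega)
    have hd1 := hDn (2 * i + 1 + 1) (by omega)
    have s1 := hDs (2 * i + 1) (by omega)
    have s2 := hDs (2 * i + 1 + 1) (by omega)
    push_cast at s1 s2
    have hm : 2 * (i : ℚ) + 4 ≤ 2 * (m : ℚ) := by exact_mod_cast (by omega : 2 * i + 4 ≤ 2 * m)
    have e1 : (2 * (i + 1) + 1) = 2 * i + 1 + 1 + 1 := by ring
    rw [e1, Nat.factorial_succ (2 * i + 1 + 1), Nat.factorial_succ (2 * i + 1)]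
    push_cast
    have hf : (0 : ℚ) < ((2 * i + 1) ! : ℚ) := by positivity
    -- s1 : 4 D ≤ (2i+2) D', s2 : 3 D' ≤ (2i+3) D''
    have g1 : 4 * D (2 * i + 1) ≤ (2 * (i : ℚ) + 1 + 1) * D (2 * i + 1 + 1) := by nlinarith
    have g2 : 3 * D (2 * i + 1 + 1) ≤ (2 * (i : ℚ) + 1 + 1 + 1) * D (2 * i + 1 + 1 + 1) := by nlinarith
    have g3 : 12 * D (2 * i + 1) ≤ (2 * (i : ℚ) + 1 + 1) * ((2 * (i : ℚ) + 1 + 1 + 1) * D (2 * i + 1 + 1 + 1)) := by
      have hi0 : (0 : ℚ) ≤ 2 * (i : ℚ) + 1 + 1 := by positivity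
      have := mul_le_mul_of_nonneg_left g2 hi0
      nlinarith
    have g4 : D (2 * i + 1) * (((2 * i + 1) ! : ℚ) * a i) ≤ (12 * D (2 * i + 1)) * (((2 * i + 1) ! : ℚ) * a (i + 1)) := by
      have : 0 ≤ D (2 * i + 1) * ((2 * i + 1) ! : ℚ) := by positivity
      nlinarith
    refine g4.trans ?_
    have h6 : 0 ≤ (((2 * i + 1) ! : ℚ) * a (i + 1)) := by positivity
    have h5 := mul_le_mul_of_nonneg_right g3 h6
    refine h5.trans (le_of_eq ?_)
    ring

end Pool.Agent.Helper85.Hopf
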