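import Pool.Agent.Helper85.Hopf.Alt

/-!
Hyperbolization-type maps of complexes and Euler characteristics.
-/

namespace Pool.Agent.Helper85.Hopf

open Finset Nat

theorem tau_eq (i : ℕ) :
    tau i = 4 * (4 ^ (i + 1) - 1) * |bernoulli (2 * i + 2)| / (2 * i + 2) := by
  have h1 : tau i = 2 * |t (2 * i + 1)| := by
    rw [t_odd, abs_mul, abs_pow, abs_neg, abs_one, one_pow, one_mul,
      abs_of_pos (mul_pos (by positivity) (a_pos i))]
    rfl
  rw [h1, t, abs_div, abs_mul, abs_mul]
  have h2 : (0 : ℚ) < ((2 * i + 1 : ℕ) : ℚ) + 1 := by positivity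
  have h3 : |(1 : ℚ) - 2 ^ (2 * i + 1 + 1)| = 4 ^ (i + 1) - 1 := by
    have : (2 : ℚ) ^ (2 * i + 1 + 1) = 4 ^ (i + 1) := by
      rw [show 2 * i + 1 + 1 = 2 * (i + 1) by ring, pow_mul]; norm_num
    rw [this, abs_sub_comm, abs_of_nonneg]
    have : (1 : ℚ) ≤ 4 ^ (i + 1) := one_le_pow₀ (by norm_num)
    linarith
  rw [h3, abs_of_pos h2, abs_of_pos (by norm_num : (0 : ℚ) < 2)]
  push_cast
  rw [show (2 * (i : ℚ) + 1 + 1) = 2 * i + 2 by ring]
  ring

section base

variable {X : Type*} [Fintype X] [PartialOrder X] [DecidableLE X] {dim : X → ℕ} {m : ℕ}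

/-- The conditions on the base. -/
structure Base (dim : X → ℕ) (m : ℕ) : Prop where
  boolean : ∀ a b : X, a ≤ b → dim a ≤ dim b ∧
    ∀ i, #{c | a ≤ c ∧ c ≤ b ∧ dim c = dim a + i} = (dim b - dim a).choose i
  dim_le : ∀ a : X, dim a ≤ 2 * m
  closed : ∀ a : X, dim a < 2 * m → 2 * m + 1 ≤ dim a + #{c | a ≤ c ∧ dim c = dim a + 1}

variable (hB : Base dim m)
include hB

theorem Base.eq_of_dim {a b : X} (hab : a ≤ b) (hd : dim a = dim b) : a = b := by
  have h := (hB.boolean a b hab).2 0
  rw [Nat.choose_zero_right, card_eq_one] at h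
  obtain ⟨c, hc⟩ := h
  have h1 : a ∈ ({c} : Finset X) := by rw [← hc]; simp [hab]
  have h2 : b ∈ ({c} : Finset X) := by rw [← hc]; simp [hab, hd]
  rw [mem_singleton] at h1 h2
  rw [h1, h2]

theorem Base.dim_lt {a b : X} (hab : a < b) : dim a < dim b := by
  refine lt_of_le_of_ne (hB.boolean a b hab.le).1 fun h => ?_
  exact hab.ne (hB.eq_of_dim hab.le h)

/-- sums over intervals -/
theorem Base.sum_interval {a b : X} (hab : a ≤ b) (g : ℕ → ℚ) :
    ∑ c with a ≤ c ∧ c ≤ b, g (dim c - dim a) =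
      ∑ i ∈ range (dim b - dim a + 1), ((dim b - dim a).choose i : ℚ) * g i := by
  have h1 : ∀ c ∈ ({c | a ≤ c ∧ c ≤ b} : Finset X), dim c - dim a ∈ range (dim b - dim a + 1) := by
    intro c hc
    simp only [mem_filter, mem_univ, true_and] at hc
    have := (hB.boolean c b hc.2).1
    rw [mem_range]; omega
  rw [← sum_fiberwise_of_maps_to h1]
  apply sum_congr rfl
  intro i _
  rw [← (hB.boolean a b hab).2 i]
  have h2 : ({c ∈ ({c | a ≤ c ∧ c ≤ b} : Finset X) | dim c - dim a = i}) =
      ({c | a ≤ c ∧ c ≤ b ∧ dim c = dim a + i} : Finset X) := by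
    ext c
    simp only [mem_filter, mem_univ, true_and]
    constructor
    · rintro ⟨⟨h3, h4⟩, h5⟩
      have := (hB.boolean a c h3).1
      exact ⟨h3, h4, by omega⟩
    · rintro ⟨h3, h4, h5⟩
      exact ⟨⟨h3, h4⟩, by omega⟩
  rw [h2, sum_congr rfl (g := fun _ => g i), sum_const, nsmul_eq_mul]
  intro c hc
  simp only [mem_filter, mem_univ, true_and] at hc
  rw [hc.2.2]
  congr 1
  omega

/-- inversion of the duality relations -/
theorem Base.inversion [DecidableEq X] [DecidableLT X] (e : X → ℚ)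
    (he : ∀ a, ∑ b with b ≤ a, e b = (-1) ^ dim a * e a) (a : X) :
    e a = ∑ b with b ≤ a ∧ Even (dim b), e b * t (dim a - dim b) := by
  induction h : dim a using Nat.strong_induction_on generalizing a with
  | _ n ih =>
    subst h
    rcases Nat.even_or_odd (dim a) with hev | hodd
    · -- only the term b = a survives
      rw [sum_eq_single_of_mem a (by simp [hev])]
      · rw [Nat.sub_self, t_zero, mul_one]
      · intro b hb hne
        simp only [mem_filter, mem_univ, true_and] at hb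
        have hlt : dim b < dim a := hB.dim_lt (lt_of_le_of_ne hb.1 hne)
        have h2 : Even (dim a - dim b) := (Nat.even_sub hlt.le).2 (by simp [hev, hb.2])
        rw [t_even h2 (by omega), mul_zero]
    · have h1 := he a
      rw [hodd.neg_one_pow] at h1
      have h2 : ({b | b ≤ a} : Finset X) = insert a ({b | b < a} : Finset X) := by
        ext b
        simp only [mem_filter, mem_univ, true_and, mem_insert]
        constructor
        · intro h; rcases eq_or_lt_of_le h with h | h
          · exact Or.inl h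
          · exact Or.inr h
        · rintro (h | h)
          · exact h.le
          · exact h.le
      rw [h2, sum_insert (by simp)] at h1
      have h3 : -2 * e a = ∑ b with b < a, e b := by linarith
      have h4 : ∑ b with b < a, e b =
          ∑ b with b < a, ∑ c with c ≤ b ∧ Even (dim c), e c * t (dim b - dim c) := by
        apply sum_congr rfl
        intro b hb
        simp only [mem_filter, mem_univ, true_and] at hb
        exact ih (dim b) (hB.dim_lt hb) b rfl
      have h5 : ∑ b with b < a, ∑ c with c ≤ b ∧ Even (dim c), e c * t (dim b - dim c) =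
          ∑ c with c ≤ a ∧ Even (dim c), ∑ b with c ≤ b ∧ b < a, e c * t (dim b - dim c) := by
        apply sum_comm'
        intro b c
        simp only [mem_filter, mem_univ, true_and]
        constructor
        · rintro ⟨h6, h7, h8⟩
          exact ⟨⟨h7, h6⟩, h7.trans h6.le, h8⟩
        · rintro ⟨⟨h7, h6⟩, _, h8⟩
          exact ⟨h6, h7, h8⟩
      have h6 : ∀ c ∈ ({c | c ≤ a ∧ Even (dim c)} : Finset X),
          ∑ b with c ≤ b ∧ b < a, e c * t (dim b - dim c) = -2 * (e c * t (dim a - dim c)) := by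
        intro c hc
        simp only [mem_filter, mem_univ, true_and] at hc
        have hne : c ≠ a := by
          rintro rfl
          exact (Nat.not_even_iff_odd.2 hodd) hc.2
        have hlt : dim c < dim a := hB.dim_lt (lt_of_le_of_ne hc.1 hne)
        have h7 := hB.sum_interval hc.1 t
        rw [sum_range_succ, Nat.choose_self, Nat.cast_one, one_mul] at h7
        have h8 : ({b | c ≤ b ∧ b ≤ a} : Finset X) = insert a ({b | c ≤ b ∧ b < a} : Finset X) := by
          ext b
          simp only [mem_filter, mem_univ, true_and, mem_insert]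
          constructor
          · rintro ⟨h, h'⟩; rcases eq_or_lt_of_le h' with h' | h'
            · exact Or.inl h'
            · exact Or.inr ⟨h, h'⟩
          · rintro (h | ⟨h, h'⟩)
            · rw [h]; exact ⟨hc.1, le_rfl⟩
            · exact ⟨h, h'.le⟩
        rw [h8, sum_insert (by simp)] at h7
        rw [← mul_sum]
        rw [t_rec (dim a - dim c) (by omega)] at h7
        have h9 : ∑ b with c ≤ b ∧ b < a, t (dim b - dim c) = -2 * t (dim a - dim c) := by
          linarith
        rw [h9]; ring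
      rw [h4, h5, sum_congr rfl h6, ← mul_sum] at h3
      linarith

/-- number of cells of dimension `dim b + k` containing `b` -/
def FF (dim : X → ℕ) (b : X) (k : ℕ) : ℕ := #{c | b ≤ c ∧ dim c = dim b + k}

theorem Base.FF_zero (b : X) : FF dim b 0 = 1 := by
  unfold FF
  rw [card_eq_one]
  refine ⟨b, ?_⟩
  ext c
  simp only [mem_filter, mem_univ, true_and, mem_singleton, add_zero]
  constructor
  · rintro ⟨h1, h2⟩
    exact (hB.eq_of_dim h1 h2.symm).symm
  · rintro rfl
    exact ⟨le_rfl, rfl⟩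

theorem Base.FF_growth (b : X) {k : ℕ} (hk : dim b + k < 2 * m) :
    (2 * m + 1 - (dim b + k)) * FF dim b k ≤ (k + 1) * FF dim b (k + 1) := by
  have h1 : ∑ c with b ≤ c ∧ dim c = dim b + k, #{c' | c ≤ c' ∧ dim c' = dim c + 1} =
      ∑ c' with b ≤ c' ∧ dim c' = dim b + (k + 1), #{c | b ≤ c ∧ c ≤ c' ∧ dim c = dim b + k} := by
    simp only [card_eq_sum_ones]
    apply sum_comm'
    intro c c'
    simp only [mem_filter, mem_univ, true_and]
    constructor
    · rintro ⟨⟨h1, h2⟩, h3, h4⟩
      exact ⟨⟨h1, h3, h2⟩, h1.trans h3, by omega⟩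
    · rintro ⟨⟨h1, h3, h2⟩, _, h4⟩
      exact ⟨⟨h1, h2⟩, h3, by omega⟩
  have h2 : ∀ c' ∈ ({c' | b ≤ c' ∧ dim c' = dim b + (k + 1)} : Finset X),
      #{c | b ≤ c ∧ c ≤ c' ∧ dim c = dim b + k} = k + 1 := by
    intro c' hc'
    simp only [mem_filter, mem_univ, true_and] at hc'
    rw [(hB.boolean b c' hc'.1).2 k, hc'.2, Nat.add_sub_cancel_left, Nat.choose_succ_self_right]
  rw [sum_congr rfl h2, sum_const, smul_eq_mul] at h1
  have h3 : ∀ c ∈ ({c | b ≤ c ∧ dim c = dim b + k} : Finset X),
      2 * m + 1 - (dim b + k) ≤ #{c' | c ≤ c' ∧ dim c' = dim c + 1} := by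
    intro c hc
    simp only [mem_filter, mem_univ, true_and] at hc
    have := hB.closed c (by omega)
    omega
  have h4 := Finset.card_nsmul_le_sum _ _ _ h3
  rw [h1, smul_eq_mul] at h4
  unfold FF
  linarith

theorem Base.link_sum (b : X) :
    ∑ c with b ≤ c, t (dim c - dim b) = ∑ k ∈ range (2 * m - dim b + 1), (FF dim b k : ℚ) * t k := by
  have h1 : ∀ c ∈ ({c | b ≤ c} : Finset X), dim c - dim b ∈ range (2 * m - dim b + 1) := by
    intro c hc
    have := hB.dim_le c
    rw [mem_range]; omega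
  rw [← sum_fiberwise_of_maps_to h1]
  apply sum_congr rfl
  intro i _
  have h2 : ({c ∈ ({c | b ≤ c} : Finset X) | dim c - dim b = i}) =
      ({c | b ≤ c ∧ dim c = dim b + i} : Finset X) := by
    ext c
    simp only [mem_filter, mem_univ, true_and]
    constructor
    · rintro ⟨h3, h5⟩
      have := (hB.boolean b c h3).1
      exact ⟨h3, by omega⟩
    · rintro ⟨h3, h5⟩
      exact ⟨h3, by omega⟩
  rw [h2, sum_congr rfl (g := fun _ => t i), sum_const, nsmul_eq_mul]
  · rfl
  intro c hc
  simp only [mem_filter, mem_univ, true_and] at hc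
  rw [hc.2, Nat.add_sub_cancel_left]

theorem Base.link_bound (b : X) {j : ℕ} (hj : dim b = 2 * j) :
    tau (m - j) ≤ (-1) ^ (m - j) * ∑ c with b ≤ c, t (dim c - dim b) := by
  have hjm : j ≤ m := by have := hB.dim_le b; omega
  rw [hB.link_sum b, show 2 * m - dim b + 1 = 2 * (m - j) + 1 by omega]
  apply local_bound
  · rw [hB.FF_zero]; simp
  · intro k hk
    have h1 := hB.FF_growth b (k := k) (by omega)
    have h2 : (((2 * m + 1 - (dim b + k) : ℕ)) : ℚ) = 2 * ((m - j : ℕ) : ℚ) + 1 - k := by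
      rw [Nat.cast_sub (by omega), Nat.cast_sub hjm, hj]; push_cast; ring
    have h3 : ((((2 * m + 1 - (dim b + k)) * FF dim b k : ℕ)) : ℚ) ≤
        (((k + 1) * FF dim b (k + 1) : ℕ) : ℚ) := by exact_mod_cast h1
    push_cast [-Nat.cast_sub] at h3
    rw [h2] at h3
    exact h3

/-- The main inequality for abstract relative Euler characteristics. -/
theorem Base.main [DecidableEq X] [DecidableLT X] (e : X → ℚ)
    (he : ∀ a, ∑ b with b ≤ a, e b = (-1) ^ dim a * e a)
    (hH : ∀ a j, dim a = 2 * j → 0 ≤ (-1) ^ j * e a) :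
    ∑ a with Even (dim a), tau (m - dim a / 2) * |e a| ≤ (-1) ^ m * ∑ a, e a := by
  have h1 : ∑ a, e a = ∑ b with Even (dim b), e b * ∑ c with b ≤ c, t (dim c - dim b) := by
    rw [sum_congr rfl (fun a _ => hB.inversion e he a)]
    simp only [mul_sum]
    apply sum_comm'
    intro a b
    simp only [mem_filter, mem_univ, true_and]
  rw [h1, mul_sum]
  apply sum_le_sum
  intro b hb
  simp only [mem_filter, mem_univ, true_and] at hb
  obtain ⟨j, hj⟩ := hb
  have hj2 : dim b = 2 * j := by omega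
  have hjm : j ≤ m := by have := hB.dim_le b; omega
  have h2 := hB.link_bound b hj2
  have h3 := hH b j hj2
  have h4 : |e b| = (-1) ^ j * e b := by
    rw [← abs_of_nonneg h3, abs_mul, abs_pow, abs_neg, abs_one, one_pow, one_mul]
  rw [show dim b / 2 = j by omega, h4]
  have h5 : ((-1 : ℚ) ^ m) = (-1) ^ j * (-1) ^ (m - j) := by
    rw [← pow_add]; congr 1; omega
  rw [h5]
  have h6 := mul_le_mul_of_nonneg_left h2 h3
  calc tau (m - j) * ((-1) ^ j * e b) = ((-1) ^ j * e b) * tau (m - j) := by ring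
    _ ≤ _ := h6
    _ = _ := by ring

end base

section total

variable {X Y : Type*} [Fintype X] [PartialOrder X] [DecidableLE X] [Fintype Y] [PartialOrder Y]
  [DecidableLE Y]

omit [Fintype X] in
/-- Lefschetz duality for the pieces: `chi (Y_a) = (-1)^(dim a) (chi (Y_a) - chi (boundary))`. -/
theorem piece_duality [DecidableEq X] (dim : X → ℕ) (dimY : Y → ℕ) (f : Y → X)
    (hcell : ∀ t : Y, ∑ s with s ≤ t, (-1 : ℚ) ^ dimY s = 1) (hf : Monotone f)
    (hpiece : ∀ (a : X) (s : Y), f s ≤ a →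
      ∑ t with s ≤ t ∧ f t ≤ a, (-1 : ℚ) ^ dimY t = if f s = a then (-1) ^ dim a else 0) (a : X) :
    ∑ s with f s ≤ a, (-1 : ℚ) ^ dimY s = (-1) ^ dim a * ∑ s with f s = a, (-1 : ℚ) ^ dimY s := by
  have h1 : ∑ s with f s ≤ a, (-1 : ℚ) ^ dimY s * ∑ t with s ≤ t ∧ f t ≤ a, (-1 : ℚ) ^ dimY t =
      ∑ t with f t ≤ a, (-1 : ℚ) ^ dimY t * ∑ s with s ≤ t, (-1 : ℚ) ^ dimY s := by
    simp only [mul_sum]
    rw [sum_comm' (t' := ({t | f t ≤ a} : Finset Y)) (s' := fun t => ({s | s ≤ t} : Finset Y))]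
    · apply sum_congr rfl
      intro t _
      apply sum_congr rfl
      intro s _
      ring
    · intro s t
      simp only [mem_filter, mem_univ, true_and]
      constructor
      · rintro ⟨_, h2, h3⟩; exact ⟨h2, h3⟩
      · rintro ⟨h2, h3⟩; exact ⟨(hf h2).trans h3, h2, h3⟩
  have h2 : ∑ t with f t ≤ a, (-1 : ℚ) ^ dimY t * ∑ s with s ≤ t, (-1 : ℚ) ^ dimY s =
      ∑ s with f s ≤ a, (-1 : ℚ) ^ dimY s := by
    apply sum_congr rfl
    intro t _
    rw [hcell, mul_one]
  have h3 : ∑ s with f s ≤ a, (-1 : ℚ) ^ dimY s * ∑ t with s ≤ t ∧ f t ≤ a, (-1 : ℚ) ^ dimY t =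
      ∑ s with f s = a, (-1 : ℚ) ^ dimY s * (-1) ^ dim a := by
    have h4 : ∑ s with f s ≤ a, (-1 : ℚ) ^ dimY s * ∑ t with s ≤ t ∧ f t ≤ a, (-1 : ℚ) ^ dimY t =
        ∑ s with f s ≤ a, if f s = a then (-1 : ℚ) ^ dimY s * (-1) ^ dim a else 0 := by
      apply sum_congr rfl
      intro s hs
      simp only [mem_filter, mem_univ, true_and] at hs
      rw [hpiece a s hs, mul_ite, mul_zero]
    rw [h4, ← sum_filter, filter_filter]
    apply sum_congr _ (fun _ _ => rfl)
    ext s
    simp only [mem_filter, mem_univ, true_and]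
    constructor
    · exact fun h => h.2
    · exact fun h => ⟨h.le, h⟩
  rw [← h2, ← h1, h3, mul_sum]
  apply sum_congr rfl
  intro s _
  ring

end total

end Pool.Agent.Helper85.Hopf
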