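import Mathlib

/-!
Euler numbers `t k = E_k(0) = 2 (1 - 2^(k+1)) B_(k+1) / (k+1)` (values of the Euler
polynomials at zero): recursion, vanishing at positive even indices, signs and growth.
-/

namespace Pool.Agent.Helper85.Hopf

open Finset PowerSeries Nat

/-- `t k = E_k(0)`, the value at zero of the k-th Euler polynomial. -/
noncomputable def t (k : ℕ) : ℚ := 2 * (1 - 2 ^ (k + 1)) * bernoulli (k + 1) / (k + 1)

theorem t_zero : t 0 = 1 := by
  unfold t; simp [bernoulli_one]; norm_num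

theorem t_even {k : ℕ} (h : Even k) (hk : k ≠ 0) : t k = 0 := by
  unfold t
  rw [bernoulli_eq_zero_of_odd (n := k + 1) (by exact h.add_one) (by omega)]
  simp

/-- generating series -/
noncomputable def TS : ℚ⟦X⟧ := PowerSeries.mk fun k => t k / (k ! : ℚ)

theorem two_eq : (2 : ℚ⟦X⟧) = C (2 : ℚ) := (map_ofNat (C (R := ℚ)) 2).symm

theorem X_mul_TS : (X : ℚ⟦X⟧) * TS =
    2 * (bernoulliPowerSeries ℚ - rescale (2 : ℚ) (bernoulliPowerSeries ℚ)) := by
  ext n
  rw [two_eq, coeff_C_mul, map_sub, coeff_rescale]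
  rcases n with _ | k
  · simp [TS, bernoulliPowerSeries]
  · rw [coeff_succ_X_mul, TS, coeff_mk]
    simp only [bernoulliPowerSeries, coeff_mk, t]
    have hk : ((k : ℚ) + 1) ≠ 0 := by positivity
    have hf : (k ! : ℚ) ≠ 0 := by positivity
    rw [Nat.factorial_succ]
    push_cast
    simp only [eq_ratCast, Rat.cast_id]
    field_simp

theorem rescale_two_exp : rescale (2 : ℚ) (exp ℚ) = exp ℚ * exp ℚ := by
  have := exp_pow_eq_rescale_exp (A := ℚ) 2
  rw [← sq]; exact_mod_cast this.symm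

theorem exp_sub_one_ne : (exp ℚ - 1 : ℚ⟦X⟧) ≠ 0 := by
  intro h
  have := congrArg (coeff 1) h
  simp [coeff_exp, coeff_one] at this

theorem TS_mul : TS * (exp ℚ + 1) = 2 := by
  have hB := bernoulliPowerSeries_mul_exp_sub_one (A := ℚ)
  have hB2 : rescale (2 : ℚ) (bernoulliPowerSeries ℚ) * (exp ℚ * exp ℚ - 1) = 2 * X := by
    have := congrArg (rescale (2 : ℚ)) hB
    rw [map_mul, map_sub, rescale_two_exp, map_one, rescale_X] at this
    rw [this, two_eq]
  have key : (X : ℚ⟦X⟧) * (exp ℚ - 1) * (TS * (exp ℚ + 1)) = X * (exp ℚ - 1) * 2 := by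
    calc (X : ℚ⟦X⟧) * (exp ℚ - 1) * (TS * (exp ℚ + 1)) 
        = (X * TS) * ((exp ℚ * exp ℚ - 1)) := by ring
      _ = 2 * ((bernoulliPowerSeries ℚ * (exp ℚ - 1)) * (exp ℚ + 1)
            - rescale (2 : ℚ) (bernoulliPowerSeries ℚ) * (exp ℚ * exp ℚ - 1)) := by
          rw [X_mul_TS]; ring
      _ = X * (exp ℚ - 1) * 2 := by rw [hB, hB2]; ring
  exact mul_left_cancel₀ (mul_ne_zero X_ne_zero exp_sub_one_ne) key

theorem coeff_two (N : ℕ) (hN : N ≠ 0) : coeff N (2 : ℚ⟦X⟧) = 0 := by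
  rw [two_eq, coeff_C]; simp [hN]

theorem t_rec (N : ℕ) (hN : N ≠ 0) :
    ∑ i ∈ range N, (N.choose i : ℚ) * t i = -2 * t N := by
  have h := congrArg (coeff N) TS_mul
  rw [mul_add, mul_one, map_add, coeff_mul] at h
  rw [coeff_two N hN, Finset.Nat.sum_antidiagonal_eq_sum_range_succ_mk, Finset.sum_range_succ] at h
  simp only [TS, coeff_mk, coeff_exp, Algebra.algebraMap_self, RingHom.id_apply] at h
  have hf : (N ! : ℚ) ≠ 0 := by positivity
  have h3 := congrArg (fun z => z * (N ! : ℚ)) h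
  simp only [zero_mul, add_mul, Finset.sum_mul] at h3
  have h4 : ∀ i ∈ range N, t i / (i ! : ℚ) * (1 / ((N - i) ! : ℚ)) * (N ! : ℚ)
      = (N.choose i : ℚ) * t i := by
    intro i hi
    have hi' : i ≤ N := (mem_range.mp hi).le
    rw [Nat.cast_choose ℚ hi']
    have h5 : (i ! : ℚ) ≠ 0 := by positivity
    have h6 : ((N - i) ! : ℚ) ≠ 0 := by positivity
    field_simp
  rw [Finset.sum_congr rfl h4] at h3
  have h7 : t N / (N ! : ℚ) * (1 / ((N - N) ! : ℚ)) * (N ! : ℚ) = t N := by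
    simp; field_simp
  have h8 : t N / (N ! : ℚ) * (N ! : ℚ) = t N := by field_simp
  rw [h7, h8] at h3
  linarith

/-- The Riccati equation for `TS`. -/
theorem TS_ode : 2 * d⁄dX ℚ TS = TS * TS - 2 * TS := by
  have h := congrArg (d⁄dX ℚ) TS_mul
  rw [Derivation.leibniz] at h
  have h2 : d⁄dX ℚ (2 : ℚ⟦X⟧) = 0 := by
    rw [two_eq]; exact derivative_C (r := (2:ℚ))
  have h1 : d⁄dX ℚ (1 : ℚ⟦X⟧) = 0 := Derivation.map_one_eq_zero _
  rw [h2, map_add, derivative_exp, h1, add_zero, smul_eq_mul, smul_eq_mul] at h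
  have h3 : TS * (TS * exp ℚ + (exp ℚ + 1) * d⁄dX ℚ TS) = 0 := by rw [h, mul_zero]
  have h4 : TS * exp ℚ = 2 - TS := by
    have := TS_mul; rw [mul_add, mul_one] at this
    linear_combination this
  have h5 : TS * (TS * exp ℚ + (exp ℚ + 1) * d⁄dX ℚ TS)
      = TS * (TS * exp ℚ) + (TS * (exp ℚ + 1)) * d⁄dX ℚ TS := by ring
  rw [h5, h4, TS_mul] at h3
  linear_combination h3

/-- scaled absolute values: `y k = coefficient of x^k in 1 - TS = tanh (x/2)` -/
theorem ode_coeff (k : ℕ) : 2 * ((k : ℚ) + 1) * (t (k + 1) / ((k + 1) ! : ℚ)) =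
    (∑ p ∈ antidiagonal k, (t p.1 / (p.1 ! : ℚ)) * (t p.2 / (p.2 ! : ℚ))) - 2 * (t k / (k ! : ℚ)) := by
  have h := congrArg (coeff k) TS_ode
  rw [two_eq, coeff_C_mul, map_sub, coeff_mul, coeff_C_mul, coeff_derivative] at h
  simp only [TS, coeff_mk] at h
  rw [← h]; ring

/-- `a n = (-1)^(n+1) t (2n+1) / (2n+1)!` -/
noncomputable def a (n : ℕ) : ℚ := (-1) ^ (n + 1) * t (2 * n + 1) / ((2 * n + 1) ! : ℚ)

theorem a_zero : a 0 = 1 / 2 := by
  have h := ode_coeff 0
  simp [t_zero] at h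
  simp [a]; linarith

theorem antidiag_even (n : ℕ) (f : ℕ → ℚ) (hf : ∀ k, Even k → f k = 0) :
    ∑ p ∈ antidiagonal (2 * (n + 1)), f p.1 * f p.2 =
      ∑ p ∈ antidiagonal n, f (2 * p.1 + 1) * f (2 * p.2 + 1) := by
  symm
  refine Finset.sum_of_injOn (fun p => (2 * p.1 + 1, 2 * p.2 + 1)) ?_ ?_ ?_ ?_
  · intro p _ q _ h
    simp only [Prod.mk.injEq] at h
    ext <;> omega
  · intro p hp
    simp only [mem_coe, HasAntidiagonal.mem_antidiagonal] at hp ⊢
    omega
  · intro p hp hn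
    simp only [HasAntidiagonal.mem_antidiagonal] at hp
    rcases Nat.even_or_odd p.1 with h | h
    · rw [hf _ h, zero_mul]
    · exfalso
      apply hn
      obtain ⟨i, hi⟩ := h
      refine ⟨(i, n - i), ?_, ?_⟩
      · simp only [mem_coe, HasAntidiagonal.mem_antidiagonal]; omega
      · ext
        · simp [hi]
        · simp; omega
  · intro p _; rfl

theorem a_rec (n : ℕ) : (2 * (n : ℚ) + 3) * a (n + 1) =
    1 / 2 * ∑ p ∈ antidiagonal n, a p.1 * a p.2 := by
  have h := ode_coeff (2 * (n + 1))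
  set f : ℕ → ℚ := fun k => if k = 0 then 0 else t k / (k ! : ℚ) with hfdef
  have hf : ∀ k, Even k → f k = 0 := by
    intro k hk
    by_cases h0 : k = 0
    · simp [hfdef, h0]
    · simp [hfdef, h0, t_even hk h0]
  have htk : t (2 * (n + 1)) = 0 := t_even (even_two_mul _) (by omega)
  have hsum : ∑ p ∈ antidiagonal (2 * (n + 1)), (t p.1 / (p.1 ! : ℚ)) * (t p.2 / (p.2 ! : ℚ))
      = ∑ p ∈ antidiagonal (2 * (n + 1)), f p.1 * f p.2 := by
    apply Finset.sum_congr rfl
    intro p hp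
    simp only [HasAntidiagonal.mem_antidiagonal] at hp
    by_cases h1 : p.1 = 0
    · have h2 : p.2 = 2 * (n + 1) := by omega
      rw [h2, htk]; simp [hfdef, h1]
    · by_cases h2 : p.2 = 0
      · have h3 : p.1 = 2 * (n + 1) := by omega
        rw [h3, htk]; simp [hfdef, h2]
      · simp [hfdef, h1, h2]
  rw [hsum, antidiag_even n f hf, htk] at h
  have hfo : ∀ i, f (2 * i + 1) = (-1) ^ (i + 1) * a i := by
    intro i
    simp only [hfdef, a]
    rw [if_neg (by omega)]
    have : ((-1 : ℚ) ^ (i + 1)) * (-1) ^ (i + 1) = 1 := by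
      rw [← mul_pow]; norm_num
    field_simp
    linear_combination (-(t (2 * i + 1))) * this
  have hs2 : ∑ p ∈ antidiagonal n, f (2 * p.1 + 1) * f (2 * p.2 + 1)
      = (-1) ^ n * ∑ p ∈ antidiagonal n, a p.1 * a p.2 := by
    rw [Finset.mul_sum]
    apply Finset.sum_congr rfl
    intro p hp
    simp only [HasAntidiagonal.mem_antidiagonal] at hp
    rw [hfo, hfo, ← hp, pow_add, pow_succ, pow_succ]
    ring
  rw [hs2] at h
  have ha : a (n + 1) = (-1) ^ (n + 2) * (t (2 * (n + 1) + 1) / ((2 * (n + 1) + 1) ! : ℚ)) := by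
    simp only [a]; ring
  have h1 : ((-1 : ℚ) ^ n) * (-1) ^ n = 1 := by rw [← mul_pow]; norm_num
  push_cast at h
  have h2 : 2 * (2 * ((n : ℚ) + 1) + 1) * (t (2 * (n + 1) + 1) / ((2 * (n + 1) + 1) ! : ℚ))
      = (-1) ^ n * ∑ p ∈ antidiagonal n, a p.1 * a p.2 := by
    rw [h]; simp
  rw [ha, pow_add]
  have h3 : (-1 : ℚ) ^ n * (2 * (2 * ((n : ℚ) + 1) + 1) *
      (t (2 * (n + 1) + 1) / ((2 * (n + 1) + 1) ! : ℚ)))
      = (-1) ^ n * ((-1) ^ n * ∑ p ∈ antidiagonal n, a p.1 * a p.2) := by rw [h2]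
  rw [← mul_assoc ((-1 : ℚ) ^ n) ((-1 : ℚ) ^ n), h1, one_mul] at h3
  rw [← h3]; ring

theorem a_pos (n : ℕ) : 0 < a n := by
  induction n using Nat.strong_induction_on with
  | _ n ih =>
    rcases n with _ | n
    · rw [a_zero]; norm_num
    · have h := a_rec n
      have hs : 0 < ∑ p ∈ antidiagonal n, a p.1 * a p.2 := by
        apply Finset.sum_pos
        · intro p hp
          simp only [HasAntidiagonal.mem_antidiagonal] at hp
          exact mul_pos (ih _ (by omega)) (ih _ (by omega))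
        · exact ⟨(0, n), by simp⟩
      have h3 : (0 : ℚ) < 2 * (n : ℚ) + 3 := by positivity
      by_contra hn
      push Not at hn
      have := mul_nonpos_of_nonneg_of_nonpos h3.le hn
      rw [h] at this
      linarith

theorem a_growth (n : ℕ) : a n ≤ 12 * a (n + 1) := by
  induction n using Nat.strong_induction_on with
  | _ n ih =>
    rcases n with _ | n
    · have h := a_rec 0
      simp [a_zero] at h
      rw [a_zero]; linarith
    · have h := a_rec (n + 1)
      have h' := a_rec n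
      rw [Finset.Nat.sum_antidiagonal_succ'] at h
      simp only [a_zero] at h
      have hs : ∑ p ∈ antidiagonal n, a p.1 * a p.2 ≤
          12 * ∑ p ∈ antidiagonal n, a p.1 * a (p.2 + 1) := by
        rw [Finset.mul_sum]
        apply Finset.sum_le_sum
        intro p hp
        simp only [HasAntidiagonal.mem_antidiagonal] at hp
        have := ih p.2 (by omega)
        have hp1 := a_pos p.1
        nlinarith
      have hpos := a_pos (n + 1)
      push_cast at h
      have hn : (0 : ℚ) ≤ n := by positivity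
      by_contra hlt
      push Not at hlt
      have : 12 * ((2 * ((n : ℚ) + 1) + 3) * a (n + 1 + 1)) < (2 * ((n : ℚ) + 1) + 3) * a (n + 1) := by
        have h3 : (0 : ℚ) < 2 * ((n : ℚ) + 1) + 3 := by positivity
        nlinarith
      rw [h] at this
      nlinarith

end Pool.Agent.Helper85.Hopf
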